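import Pool.Agent.Y920.HN.Stm

/-!
# Project HN: infinite convolution of measures
-/

set_option autoImplicit false

open MeasureTheory Filter Topology

noncomputable section

namespace Pool.Agent.Y585.HN

open Pool.Agent.Y920.HN

/-- replacing one coordinate by an independent copy -/
theorem map_update {G : Type} [MeasurableSpace G] (ν : ℕ → Measure G)
    (hν : ∀ m, IsProbabilityMeasure (ν m)) (m : ℕ) :
    ((Measure.infinitePi ν).prod (ν m)).map (fun p : (ℕ → G) × G => Function.update p.1 m p.2) =
      Measure.infinitePi ν := by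
  have hmeas : Measurable (fun p : (ℕ → G) × G => Function.update p.1 m p.2) := by
    rw [measurable_pi_iff]
    intro i
    by_cases h : i = m
    · subst h
      simpa using measurable_snd
    · simp only [Function.update_of_ne h]
      exact (measurable_pi_apply i).comp measurable_fst
  apply Measure.eq_infinitePi
  intro s t ht
  have hbox : MeasurableSet (Set.pi (s : Set ℕ) t) :=
    MeasurableSet.pi s.countable_toSet (fun i _ => ht i)
  rw [Measure.map_apply hmeas hbox]
  by_cases hm : m ∈ s
  · have e : (fun p : (ℕ → G) × G => Function.update p.1 m p.2) ⁻¹' (Set.pi (s : Set ℕ) t) =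
        (Set.pi ((s.erase m : Finset ℕ) : Set ℕ) t) ×ˢ (t m) := by
      ext p
      simp only [Set.mem_preimage, Set.mem_pi, Finset.mem_coe, Set.mem_prod, Finset.mem_erase]
      constructor
      · intro h
        refine ⟨fun i hi => ?_, ?_⟩
        · have := h i hi.2
          rwa [Function.update_of_ne hi.1] at this
        · have := h m hm
          rwa [Function.update_self] at this
      · rintro ⟨h1, h2⟩ i hi
        by_cases him : i = m
        · subst him; rwa [Function.update_self]
        · rw [Function.update_of_ne him]; exact h1 i ⟨him, hi⟩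
    rw [e, Measure.prod_prod, Measure.infinitePi_pi _ (fun i _ => ht i)]
    rw [mul_comm]
    exact Finset.mul_prod_erase s (fun i => ν i (t i)) hm
  · have e : (fun p : (ℕ → G) × G => Function.update p.1 m p.2) ⁻¹' (Set.pi (s : Set ℕ) t) =
        (Set.pi (s : Set ℕ) t) ×ˢ Set.univ := by
      ext p
      simp only [Set.mem_preimage, Set.mem_pi, Finset.mem_coe, Set.mem_prod, Set.mem_univ,
        and_true]
      constructor
      · intro h i hi
        have him : i ≠ m := fun e => hm (e ▸ hi)
        have := h i hi
        rwa [Function.update_of_ne him] at this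
      · intro h i hi
        have him : i ≠ m := fun e => hm (e ▸ hi)
        rw [Function.update_of_ne him]; exact h i hi
    rw [e, Measure.prod_prod, Measure.infinitePi_pi _ (fun i _ => ht i), measure_univ, mul_one]

section

variable {G : Type} [Group G] [TopologicalSpace G]

open Classical in
/-- the element moved into the subgroup -/
def tr (F : Filt G) (j : ℕ) (y : G) : G := if y ∈ F.V j then y else 1

theorem tr_mem (F : Filt G) (j : ℕ) (y : G) : tr F j y ∈ F.V j := by
  unfold tr
  split_ifs with h
  · exact h
  · exact (F.V j).one_mem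

/-- products of the first factors -/
def pp (F : Filt G) (k : ℕ) (y : ℕ → G) : ℕ → G
  | 0 => 1
  | j + 1 => pp F k y j * tr F (k + j) (y j)

theorem pp_step (F : Filt G) (k : ℕ) (y : ℕ → G) (n i : ℕ) :
    (pp F k y n)⁻¹ * pp F k y (n + i) ∈ F.V (k + n) := by
  induction i with
  | zero => simp [(F.V (k + n)).one_mem]
  | succ i ih =>
    have e : (pp F k y n)⁻¹ * pp F k y (n + (i + 1)) =
        ((pp F k y n)⁻¹ * pp F k y (n + i)) * tr F (k + (n + i)) (y (n + i)) := by
      rw [← add_assoc]
      simp only [pp, mul_assoc]
    rw [e]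
    exact (F.V (k + n)).mul_mem ih (F.anti (by omega) (tr_mem F _ _))

theorem ex_lim (F : Filt G) (k : ℕ) (y : ℕ → G) :
    ∃ x, ∀ n, (pp F k y n)⁻¹ * x ∈ F.V n :=
  F.complete _ (fun n => F.anti (Nat.le_add_left n k) (pp_step F k y n 1))

/-- the infinite product -/
def lim (F : Filt G) (k : ℕ) (y : ℕ → G) : G := (ex_lim F k y).choose

theorem lim_mem (F : Filt G) (k : ℕ) (y : ℕ → G) (n : ℕ) :
    (pp F k y n)⁻¹ * lim F k y ∈ F.V (k + n) := by
  have h1 := (ex_lim F k y).choose_spec (n + k)
  have h2 := pp_step F k y n k
  have e : (pp F k y n)⁻¹ * lim F k y =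
      ((pp F k y n)⁻¹ * pp F k y (n + k)) * ((pp F k y (n + k))⁻¹ * lim F k y) := by group
  rw [e]
  refine (F.V (k + n)).mul_mem h2 ?_
  rw [add_comm k n]
  exact h1

theorem pp_update (F : Filt G) (k : ℕ) (y : ℕ → G) (m : ℕ) (w : G) (j : ℕ) (hj : j ≤ m) :
    pp F k (Function.update y m w) j = pp F k y j := by
  induction j with
  | zero => rfl
  | succ j ih =>
    simp only [pp]
    rw [ih (by omega), Function.update_of_ne (by omega)]

theorem pp_update' (F : Filt G) (k : ℕ) (y : ℕ → G) (m : ℕ) (w : G) (i : ℕ) :
    (pp F k (Function.update y m w) (m + 1))⁻¹ * pp F k (Function.update y m w) (m + 1 + i) =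
      (pp F k y (m + 1))⁻¹ * pp F k y (m + 1 + i) := by
  induction i with
  | zero => simp
  | succ i ih =>
    have e : ∀ z : ℕ → G, (pp F k z (m + 1))⁻¹ * pp F k z (m + 1 + (i + 1)) =
        ((pp F k z (m + 1))⁻¹ * pp F k z (m + 1 + i)) *
          tr F (k + (m + 1 + i)) (z (m + 1 + i)) := by
      intro z
      rw [← add_assoc (m + 1) i 1]
      simp only [pp, mul_assoc]
    rw [e, e, ih, Function.update_of_ne (by omega)]

variable [IsTopologicalGroup G]

theorem pp_tendsto (F : Filt G) (k : ℕ) (y : ℕ → G) :
    Tendsto (fun n => pp F k y n) atTop (𝓝 (lim F k y)) := by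
  have h1 : Tendsto (fun n => ((pp F k y n)⁻¹ * lim F k y)⁻¹) atTop (𝓝 1) := by
    intro U hU
    obtain ⟨N, hN⟩ := F.base U hU
    rw [mem_map, mem_atTop_sets]
    refine ⟨N, fun n hn => hN ?_⟩
    exact (F.V N).inv_mem (F.anti (by omega) (lim_mem F k y n))
  have h2 : Tendsto (fun n => lim F k y * ((pp F k y n)⁻¹ * lim F k y)⁻¹) atTop
      (𝓝 (lim F k y * 1)) := tendsto_const_nhds.mul h1
  rw [mul_one] at h2
  refine h2.congr (fun n => ?_)
  group

theorem lim_update [T2Space G] (F : Filt G) (k : ℕ) (y : ℕ → G) (m : ℕ) (w : G) :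
    lim F k (Function.update y m w) =
      pp F k y m * tr F (k + m) w * ((pp F k y (m + 1))⁻¹ * lim F k y) := by
  have h1 : ∀ z : ℕ → G, Tendsto (fun i => (pp F k z (m + 1))⁻¹ * pp F k z (m + 1 + i)) atTop
      (𝓝 ((pp F k z (m + 1))⁻¹ * lim F k z)) := by
    intro z
    refine tendsto_const_nhds.mul ((pp_tendsto F k z).comp ?_)
    exact tendsto_atTop_mono (fun i => Nat.le_add_left i (m + 1)) tendsto_id
  have h2 := h1 (Function.update y m w)
  simp only [pp_update'] at h2
  have h3 := tendsto_nhds_unique h2 (h1 y)
  have h4 : pp F k (Function.update y m w) (m + 1) = pp F k y m * tr F (k + m) w := by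
    simp only [pp]
    rw [pp_update F k y m w m le_rfl, Function.update_self]
  rw [h4] at h3
  rw [← h3]
  group

end

theorem t_CONV : S_CONV := by
  intro G _ _ _ _ _ _ F k ν hν hV
  set P := Measure.infinitePi ν with hP
  have htr : ∀ j, Measurable (tr F j) := by
    intro j
    unfold tr
    exact Measurable.ite (F.isOpen j).measurableSet measurable_id measurable_const
  have hpp : ∀ j, Measurable (fun y : ℕ → G => pp F k y j) := by
    intro j
    induction j with
    | zero => exact measurable_const
    | succ j ih =>
      simp only [pp]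
      exact ih.mul ((htr _).comp (measurable_pi_apply j))
  have hlim : Measurable (fun y : ℕ → G => lim F k y) := by
    refine measurable_of_tendsto_metrizable hpp ?_
    rw [tendsto_pi_nhds]
    exact fun y => pp_tendsto F k y
  refine ⟨P.map (lim F k), Measure.isProbabilityMeasure_map hlim.aemeasurable, ?_⟩
  intro m B h hB hm g
  have hS : MeasurableSet {y : G | g * y * h ∈ B} := by
    have : Measurable (fun y : G => g * y * h) := by fun_prop
    exact this hB
  rw [Measure.map_apply hlim hS]
  have hS2 : MeasurableSet ((fun y : ℕ → G => lim F k y) ⁻¹' {y : G | g * y * h ∈ B}) := hlim hS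
  have hmeas : Measurable (fun p : (ℕ → G) × G => Function.update p.1 m p.2) := by
    rw [measurable_pi_iff]
    intro i
    by_cases h : i = m
    · subst h
      simpa using measurable_snd
    · simp only [Function.update_of_ne h]
      exact (measurable_pi_apply i).comp measurable_fst
  rw [hP, ← map_update ν hν m, Measure.map_apply hmeas hS2]
  rw [Measure.measure_prod_null (hmeas hS2)]
  filter_upwards with y
  simp only [Pi.zero_apply]
  set q := (pp F k y (m + 1))⁻¹ * lim F k y with hq
  have hqV : q ∈ F.V k := F.anti (by omega) (lim_mem F k y (m + 1))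
  have h0 := hm (g * pp F k y m) q hqV
  refine measure_mono_null ?_ (measure_union_null h0 (hV m))
  intro w hw
  by_cases hwV : w ∈ F.V (k + m)
  · left
    have hw' : g * lim F k (Function.update y m w) * h ∈ B := hw
    rw [lim_update] at hw'
    have e : tr F (k + m) w = w := by
      unfold tr; rw [if_pos hwV]
    rw [e, ← hq] at hw'
    show g * pp F k y m * w * (q * h) ∈ B
    have e2 : g * pp F k y m * w * (q * h) = g * (pp F k y m * w * q) * h := by group
    rw [e2]; exact hw'
  · right
    exact hwV

end Pool.Agent.Y585.HN
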